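import Pool.Agent.P8H64.GH.Par

set_option autoImplicit false

/-!
# Parshin's conjecture in bounded dimension and trilinear forms (MP_de59b4_ag, Q1)

Definitions: `hypS` (the hypersurface `T(x, y, z) = 1` of a trilinear form `T`) is in
`Pool/Agent/Y116/UV/Defs.lean`; `bilS` (the system of the bilinear equations `∑ T_{ijl} x_i y_j = 0`) in
`Pool/Agent/Q282/UK/Bil.lean`; `DimAll`, `DimSmooth`, `ForTri`, `ForBlock`, `ForBil` in
`Pool/Agent/P8H64/GH/Dims.lean`; `PThy` (rational motivic homology and weight homology, with the known
properties which are used), `PThy.ParshinDim` and `PThy.Holds` in `Pool/Agent/P8H64/GH/Par.lean`.

`T.ParshinDim d` is Parshin's conjecture for all smooth proper schemes of dimension at most `d` over the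
finite field `k`: `H^i(X, ℚ(n)) = 0` for all `i ≠ 2 n` and all `n`. `T.Holds X` says that the canonical map from
the rational motivic homology of `X` to the weight homology is an isomorphism; for smooth proper `X` this is
Parshin's conjecture (`Pool.Agent.P8H64.GH.Par.holds_iff`).

The theorem: for every finite field `k` and every `d`, Parshin's conjecture in dimension at most `d` is
equivalent to `T.Holds` for the hypersurfaces `T(x, y, z) = 1`, where `T` is a trilinear form over `k` with
`d + 2` variables `z` and any numbers of variables `x` and `y`; it implies `T.Holds` for all systems of
bilinear equations with at most `d + 2` variables `x`, or at most `d + 2` variables `y`, or at most `d + 2`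
equations. So for the first open case `d = 2`, surfaces, the trilinear forms with four variables `z` are
sufficient. As the case `d = 1` is known (Quillen, Harder), `T.Holds` is true for the trilinear
hypersurfaces with a block of at most three variables and for the systems of bilinear equations with at most
three variables in one block or at most three equations, of any dimension.

The closure properties of `T.Holds` are proved by the five lemma; the equivalence with trilinear forms is a
theorem of the starting files for all properties of this kind (`Pool.Agent.Z125.UN.dim_tri`).
-/

namespace Pool.Agent.Results.MP_de59b4_ag.BoundedDimension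

open Pool.Agent.Y116.UV Pool.Agent.P8H64.GH Pool.Agent.P8H64.GH.Par

/-- Let `k` be a finite field. For every `d` the following are equivalent: Parshin's conjecture for all smooth
proper schemes over `k` of dimension at most `d`; the map from the rational motivic homology to the weight
homology is an isomorphism for all separated schemes of finite type over `k` of dimension at most `d`; the same
for the smooth ones; the same for the hypersurfaces `T(x, y, z) = 1` with `d + 2` variables `z`; the same for
the hypersurfaces `T(x, y, z) = 1` in which one of the three blocks has at most `d + 2` variables. If they are
true, the same is true for all systems of bilinear equations with at most `d + 2` variables in one of the two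
blocks or at most `d + 2` equations. All this is true for `d = 1`. -/
theorem result (k : Type) [Field k] [Finite k] (T : PThy k) :
    (∀ d : ℕ, List.TFAE [T.ParshinDim d, DimAll k True T.Holds d, DimSmooth k True T.Holds d,
      ForTri k T.Holds (d + 2), ForBlock k T.Holds (d + 2)] ∧
      (T.ParshinDim d → ForBil k T.Holds (d + 2))) ∧
    ForBlock k T.Holds 3 ∧ ForBil k T.Holds 3 := by
  have h1 := dim_one T
  have h2 := ((dims T 1).1.out 1 4 : DimAll k True T.Holds 1 ↔ ForBlock k T.Holds (1 + 2)).1 h1
  exact ⟨fun d => dims T d, h2, (dims T 1).2 ((dim_iff T 1).2 h1)⟩

end Pool.Agent.Results.MP_de59b4_ag.BoundedDimension
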