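import Pool.Agent.P8H64.GH.Par

set_option autoImplicit false

/-!
# Parshin's conjecture over `𝔽_p` and graph hypersurfaces (MP_de59b4_ag, Q1)

Definitions: `lap` (the reduced weighted Laplacian), `kirchhoff`, `sparseDet`, `ConeSplit` are in
`Pool/Agent/P8H64/GH/Graph.lean`; `GLRing`, `CRing`, `HRing` in `Pool/Agent/P8H64/GH/Main.lean`; `ForAll`,
`ForSmooth`, `ForSparse`, `ForCompl`, `ForConeCompl`, `ForHyp`, `ForConeHyp` in `Pool/Agent/P8H64/GH/Tfae.lean`;
`PThy` (rational motivic homology and weight homology, with the known properties which are used),
`PThy.ParshinAll` and `PThy.Holds` in `Pool/Agent/P8H64/GH/Par.lean`.

`T.ParshinAll` is Parshin's conjecture for all smooth proper schemes over `𝔽_p`: `H^i(X, ℚ(n)) = 0` for all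
`i ≠ 2 n` and all `n`. (A scheme over a finite extension of `𝔽_p` can be considered over `𝔽_p`.) `T.Holds X`
says that the canonical map from the rational motivic homology of `X` to the weight homology, the homology of
the complex of Chow groups of the weight complex of Gillet and Soulé, is an isomorphism; for smooth proper
`X` this is Parshin's conjecture (`Pool.Agent.P8H64.GH.Par.holds_iff`).

Proof. `T.Holds` is closed under closed-open decompositions, by the five lemma, it passes to Jouanolou's affine
bundles and back, and from `X × 𝔾_m` to `X`. The theorem holds for all properties of this kind.

1. (`glgood_of_split`, `graphBij`) The complement of the graph hypersurface of a cone over a split graph is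
  the space of the invertible symmetric matrices `[[A, X], [Xᵗ, Δ]]`, with `A` arbitrary, `Δ` diagonal, and
  `X` with prescribed zeros. If the property is true for these, it is true for those with `Δ = 0`, by
  induction on the number of the zeros of `Δ`: where the entry `δ` of `Δ` is a unit, the column of `δ` can be
  cleared, which changes only `A`. For `Δ = 0` and `X` square the matrix is invertible iff `X` is invertible.
  This gives the schemes `GL_S` of the invertible matrices with prescribed zeros.
2. (`good_pat`) The same for the invertible matrices with prescribed zeros and with ones at the places of a
  forest, as these are the quotient of the open part where the entries are units by a torus.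
3. (`good_vanish`) Let `Q` be a matrix of linear forms as in 2. Bordering `Q` by one row and one column of
  new variables one obtains the locus where `Q` is invertible and a given entry of the adjugate of `Q`
  vanishes, and several such equations, if they are imposed one after the other, by the bundle
  `∑ c_t y_t = 1` over the complement of `c = 0`.
4. (`good_vw`, `good_bil`) With 3 one obtains the spaces of the pairs `(V, W)` of matrices with prescribed
  zeros and with ones on forests such that `V W` has prescribed zeros, and every system of bilinear equations
  `∑ T_{ijl} x_i y_j = 0` with coefficients zero and one is such a space. These systems generate all schemes of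
  finite type over `ℤ/p` (`clo_universal`).
-/

namespace Pool.Agent.Results.MP_de59b4_ag.GraphHypersurfaces

open Pool.Agent.Y116.UV Pool.Agent.P8H64.GH Pool.Agent.P8H64.GH.Par

/-- The following statements are equivalent, for all of these `X` over `ℤ/p`:

1. Parshin's conjecture for all smooth proper `X`;
2. the canonical map from the rational motivic homology to the weight homology is an isomorphism for all
  separated schemes of finite type;
3. the same for all smooth ones;
4. the same for the schemes `GL_S` of the invertible matrices with zeros outside of `S`, for all finite sets `S`
  of places;
5. the same for the complements of the graph hypersurfaces of all graphs;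
6. the same for those of the cones over split graphs;
7. the same for the graph hypersurfaces of all graphs;
8. the same for those of the cones over split graphs. -/
theorem result {p : ℕ} [Fact p.Prime] (T : PThy (ZMod p)) :
    List.TFAE [T.ParshinAll, ForAll (ZMod p) True T.Holds, ForSmooth (ZMod p) True T.Holds,
      ForSparse (ZMod p) T.Holds, ForCompl (ZMod p) T.Holds, ForConeCompl (ZMod p) T.Holds,
      ForHyp (ZMod p) T.Holds, ForConeHyp (ZMod p) T.Holds] :=
  main T

end Pool.Agent.Results.MP_de59b4_ag.GraphHypersurfaces
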