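import Pool.Agent.P8H27.UT.Thms

/-!
# Parshin's conjecture for the products of varieties with uncorrelated slopes

Let `q = p ^ m`. Let `X` be a smooth projective variety over the field with `q` elements, whose motive is
finite-dimensional in the sense of Kimura (`IsVariety`) and which satisfies the Tate conjecture
(`HasTate`: Frobenius is semisimple, all Tate classes are algebraic). For example `X` may be any
abelian variety of dimension at most three, any product of elliptic curves, any abelian variety
without exotic Tate classes or for which the exotic Tate classes are known to be algebraic, or a
product of curves with such a Jacobian variety. Let `S` be a set of Weil numbers such that the eigenvalues of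
Frobenius on the cohomology of `X` are products of numbers in `S` (`HasEigenvaluesIn`; for an abelian variety
the eigenvalues on `H^1`). If an eigenvalue is a power of `q` up to a root of unity then it is assumed to
be a power of `q`; this is so over some finite extension of the ground field.

Let `Z` be an **arbitrary** smooth projective variety over this field, such that the eigenvalues of
Frobenius on its cohomology are uncorrelated with `S` (`HasUncorrelatedRoots`, `IsUncorrelated`): they
are products of Weil numbers `β` with

  `∑ (2 v(τ α) - u) (2 v(τ β) - w) = 0`    for all `α ∈ S`

(`Uncorrelated`), where `u` and `w` are the weights of `α` and `β`, the sum is over all embeddings `τ` of the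
field `ℚ(α, β)` in an algebraic closure of `ℚ_p`, and `v` is the valuation with `v(q) = 1`. This is a
condition for pairs of Weil numbers, and it is satisfied for instance if the fields `ℚ(α)` and `ℚ(β)` are
linearly disjoint, or if some automorphism of `ℚ(α, β)` is the complex conjugation on `ℚ(α)` and the identity on
`ℚ(β)`, or if all slopes of `β` are equal, or if `β` comes from an ordinary K3 surface and the mean value
of the slopes of `α` at the places above one place of `ℚ(β)` is `u / 2`. (Moreover, if there are odd
supersingular eigenvalues for `X` then there must be none for `Z`; the condition is empty if the
cohomology of `X` or of `Z` has no supersingular part in odd degrees.)

**Theorem** (`ParshinTimes`). For all `i` and `j` the group `H^i(X × Z, ℚ(j))` of motivic cohomology is zero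
**if and only if** the groups `H^(i - 2 k)(Z, ℚ(j - k))`, `0 ≤ k ≤ dim X`, are zero. Hence Parshin's
conjecture is true for `X × Z` if and only if it is true for `Z`. Moreover there are finitely many
cycles `D t` on `X`, independent of `Z`, such that the motivic cohomology of `X × Z` is the direct sum of the
products of the `D t` with the motivic cohomology of `Z` (`Kunneth`).

What was known: such criteria for abelian varieties `X` without exotic Tate classes, such that the
field generated by the eigenvalues of `Z` is independent of the fields of the simple factors of `X`, for almost
all `X`, or for special families of `X` (the starting files, and `TracesTimesVarieties`). Here `X` is any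
variety with a finite-dimensional motive and the Tate conjecture, no relation between the
Galois groups is assumed, exotic classes are allowed for `X` and for `Z`, and the independence is replaced by one
number for each pair, which depends on the slopes.

The proof. Let `α` be an eigenvalue for `X` and `ρ` one for `Z` with `α ρ = q ^ c`. The functions
`g ↦ 2 v(g α) - u` and `g ↦ 2 v(g ρ) - w` on the Galois group of a large number field have the sum zero and, by
the hypothesis, are orthogonal, so both are zero, and `α` and `ρ` are powers of the square root of
`q` up to roots of unity; hence `α` is a power of `q` and its eigenvectors are algebraic by the Tate conjecture for `X`.
So the projector to the algebraic classes on `X`, which is an algebraic correspondence as the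
intersection numbers are nondegenerate, acts as the identity on the theory of `X × Z`, up to a
homologically trivial, hence nilpotent, correspondence and up to a polynomial in Frobenius which is invertible.
-/

namespace Pool.Agent.Results.MP_de59b4_ag.UncorrelatedProducts

open Pool.Agent.P8H27.UT

/-- **Parshin's conjecture for the products `X × Z`** is equivalent to the conjecture for `Z`, if `X`
satisfies the Tate conjecture and the slopes of `X` and `Z` are uncorrelated. -/
theorem result {p m : ℕ} [Fact p.Prime] (hm : 0 < m) : ParshinTimes p m :=
  parshinTimes hm

end Pool.Agent.Results.MP_de59b4_ag.UncorrelatedProducts
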